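import Mathlib
import Pool.Agent.H243R3.PCP.Quad

namespace Pool.Agent.Results.MP_d4a15d_co.BoundedVertexDegree

open Finset

/-! ## Graphs and paths -/

/-- A finite graph, loops and multiple edges allowed, every edge with a chosen orientation. -/
structure MGraph where
  V : Type
  E : Type
  [finV : Fintype V]
  [finE : Fintype E]
  src : E → V
  tgt : E → V

attribute [instance] MGraph.finV MGraph.finE

namespace MGraph

variable (G : MGraph)

/-- Oriented edges: `(e, true)` is `e` with its chosen orientation, `(e, false)` the opposite. -/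
abbrev Dart : Type := G.E × Bool

/-- Origin of an oriented edge. -/
def tail (d : G.Dart) : G.V := if d.2 then G.src d.1 else G.tgt d.1

/-- Endpoint of an oriented edge. -/
def head (d : G.Dart) : G.V := if d.2 then G.tgt d.1 else G.src d.1

/-- The opposite oriented edge. -/
def rev (d : G.Dart) : G.Dart := (d.1, !d.2)

/-- `c` is a path from `u` to `v`. -/
def IsPath : G.V → List G.Dart → G.V → Prop
  | u, [], v => u = v
  | u, d :: c, v => G.tail d = u ∧ IsPath (G.head d) c v

/-- Connected graphs. -/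
def Connected : Prop := Nonempty G.V ∧ ∀ u v, ∃ c, G.IsPath u c v

/-- The number of edges at a vertex (a loop counts twice). -/
noncomputable def degree (v : G.V) : ℕ := Nat.card {d : G.Dart // G.tail d = v}

/-- Cyclically reduced closed paths. -/
def CyclicallyReduced (c : List G.Dart) : Prop :=
  c ≠ [] ∧ (∃ u, G.IsPath u c u) ∧ (c ++ c.take 1).IsChain fun d d' => d' ≠ G.rev d

end MGraph

/-- A finite polygonal complex: a finite graph and finitely many polygons attached along
cyclically reduced closed paths. -/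
structure PolygonalComplex extends MGraph where
  P : Type
  [finP : Fintype P]
  bd : P → List toMGraph.Dart
  attach : ∀ p, toMGraph.CyclicallyReduced (bd p)

attribute [instance] PolygonalComplex.finP

/-! ## Cochains with permutation coefficients -/

open Classical in
/-- The normalised Hamming distance on `Sym(n)`. -/
noncomputable def dh {n : ℕ} (σ τ : Equiv.Perm (Fin n)) : ℝ :=
  (#{j : Fin n | σ j ≠ τ j} : ℝ) / n

/-- The value of a 1-cochain (given by its values on the edges with their chosen orientation) on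
an oriented edge. -/
def val {E : Type} {n : ℕ} (α : E → Equiv.Perm (Fin n)) (d : E × Bool) : Equiv.Perm (Fin n) :=
  if d.2 then α d.1 else (α d.1)⁻¹

/-- The product of the values of a 1-cochain along a path. -/
def along {E : Type} {n : ℕ} (α : E → Equiv.Perm (Fin n)) (c : List (E × Bool)) :
    Equiv.Perm (Fin n) := (c.map (val α)).prod

namespace PolygonalComplex

variable (X : PolygonalComplex)

/-- `μ₂`: uniform on the polygons. -/
noncomputable def mu2 (_ : X.P) : ℝ := 1 / Fintype.card X.P

open Classical in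
/-- The sum of `μ₂` over the polygons containing the edge `e`. -/
noncomputable def w1 (e : X.E) : ℝ := ∑ p : X.P with ∃ b, (e, b) ∈ X.bd p, X.mu2 p

/-- `μ₁`: proportional to `w1`. -/
noncomputable def mu1 (e : X.E) : ℝ := X.w1 e / ∑ e', X.w1 e'

open Classical in
/-- The sum of `μ₁` over the edges containing the vertex `v`. -/
noncomputable def w0 (v : X.V) : ℝ := ∑ e : X.E with X.src e = v ∨ X.tgt e = v, X.mu1 e

/-- `μ₀`: proportional to `w0`. -/
noncomputable def mu0 (v : X.V) : ℝ := X.w0 v / ∑ v', X.w0 v'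

/-- The coboundary of a 0-cochain. -/
def delta0 {n : ℕ} (β : X.V → Equiv.Perm (Fin n)) (e : X.E) : Equiv.Perm (Fin n) :=
  (β (X.src e))⁻¹ * β (X.tgt e)

/-- The coboundary of a 1-cochain. -/
def delta1 {n : ℕ} (α : X.E → Equiv.Perm (Fin n)) (p : X.P) : Equiv.Perm (Fin n) :=
  along α (X.bd p)

/-- The norm of a 1-cochain. -/
noncomputable def norm1 {n : ℕ} (α : X.E → Equiv.Perm (Fin n)) : ℝ :=
  ∑ e, X.mu1 e * dh (α e) 1

/-- The norm of a 2-cochain (given by one value for each polygon). -/
noncomputable def norm2 {n : ℕ} (γ : X.P → Equiv.Perm (Fin n)) : ℝ :=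
  ∑ p, X.mu2 p * dh (γ p) 1

/-- The constant 0-cochains. -/
def B0 (n : ℕ) : Set (X.V → Equiv.Perm (Fin n)) := {β | ∃ σ, ∀ v, β v = σ}

/-- The 1-coboundaries. -/
def B1 (n : ℕ) : Set (X.E → Equiv.Perm (Fin n)) := Set.range X.delta0

/-- The distance of a 0-cochain from the constant ones. -/
noncomputable def dist0 {n : ℕ} (β : X.V → Equiv.Perm (Fin n)) : ℝ :=
  ⨅ σ : Equiv.Perm (Fin n), ∑ v, X.mu0 v * dh (β v) σ

/-- The distance of a 1-cochain from the coboundaries. -/
noncomputable def dist1 {n : ℕ} (α : X.E → Equiv.Perm (Fin n)) : ℝ :=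
  ⨅ β : X.V → Equiv.Perm (Fin n), ∑ e, X.mu1 e * dh (α e) (X.delta0 β e)

/-- The Cheeger constant `h₀^B(X, Sym)`. -/
noncomputable def h0 : ENNReal :=
  ⨅ (n : ℕ) (_ : 1 ≤ n) (β : X.V → Equiv.Perm (Fin n)) (_ : β ∉ X.B0 n),
    ENNReal.ofReal (X.norm1 (X.delta0 β) / X.dist0 β)

/-- The Cheeger constant `h₁^B(X, Sym)`. -/
noncomputable def h1 : ENNReal :=
  ⨅ (n : ℕ) (_ : 1 ≤ n) (α : X.E → Equiv.Perm (Fin n)) (_ : α ∉ X.B1 n),
    ENNReal.ofReal (X.norm2 (X.delta1 α) / X.dist1 α)

end PolygonalComplex

/-! ## Hamming distance -/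

section dh

variable {n : ℕ}

theorem dh_nonneg (σ τ : Equiv.Perm (Fin n)) : 0 ≤ dh σ τ := by unfold dh; positivity

theorem dh_self (σ : Equiv.Perm (Fin n)) : dh σ σ = 0 := by simp [dh]

theorem dh_comm (σ τ : Equiv.Perm (Fin n)) : dh σ τ = dh τ σ := by
  unfold dh
  simp only [ne_comm]

theorem dh_pos (hn : 1 ≤ n) {σ τ : Equiv.Perm (Fin n)} (h : σ ≠ τ) : 0 < dh σ τ := by
  classical
  unfold dh
  have h1 : ∃ j, σ j ≠ τ j := by
    by_contra hcon
    push Not at hcon
    exact h (Equiv.ext hcon)
  obtain ⟨j, hj⟩ := h1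
  have h2 : 0 < #{j : Fin n | σ j ≠ τ j} := card_pos.2 ⟨j, by simpa using hj⟩
  have h3 : (0 : ℝ) < n := by exact_mod_cast hn
  positivity

theorem dh_mul_left (g σ τ : Equiv.Perm (Fin n)) : dh (g * σ) (g * τ) = dh σ τ := by
  unfold dh
  simp only [Equiv.Perm.mul_apply, ne_eq, EmbeddingLike.apply_eq_iff_eq]

theorem dh_mul_right (σ τ g : Equiv.Perm (Fin n)) : dh (σ * g) (τ * g) = dh σ τ := by
  classical
  unfold dh
  congr 2
  refine Finset.card_equiv g fun j => ?_
  rw [Finset.mem_filter, Finset.mem_filter]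
  simp only [Finset.mem_univ, true_and, Equiv.Perm.mul_apply]

theorem dh_conj (g σ : Equiv.Perm (Fin n)) : dh (g * σ * g⁻¹) 1 = dh σ 1 := by
  have h1 : (1 : Equiv.Perm (Fin n)) = g * 1 * g⁻¹ := by simp
  conv_lhs => rw [h1]
  rw [dh_mul_right, dh_mul_left]

end dh

/-! ## Paths -/

section paths

variable {G : MGraph} {n : ℕ}

theorem isPath_append {u w : G.V} {a b : List G.Dart} :
    G.IsPath u (a ++ b) w ↔ ∃ v, G.IsPath u a v ∧ G.IsPath v b w := by
  induction a generalizing u with
  | nil => simp [MGraph.IsPath]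
  | cons d a ih =>
    simp only [List.cons_append, MGraph.IsPath, ih]
    constructor
    · rintro ⟨h1, v, h2, h3⟩; exact ⟨v, ⟨h1, h2⟩, h3⟩
    · rintro ⟨v, ⟨h1, h2⟩, h3⟩; exact ⟨h1, v, h2, h3⟩

@[simp] theorem tail_rev (d : G.Dart) : G.tail (G.rev d) = G.head d := by
  rcases d with ⟨e, _ | _⟩ <;> rfl

@[simp] theorem head_rev (d : G.Dart) : G.head (G.rev d) = G.tail d := by
  rcases d with ⟨e, _ | _⟩ <;> rfl

@[simp] theorem rev_rev (d : G.Dart) : G.rev (G.rev d) = d := by
  rcases d with ⟨e, _ | _⟩ <;> rfl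

theorem rev_ne (d : G.Dart) : G.rev d ≠ d := by
  rcases d with ⟨e, _ | _⟩ <;> simp [MGraph.rev]

/-- The reversed path. -/
def back (c : List G.Dart) : List G.Dart := (c.map G.rev).reverse

theorem isPath_back {u v : G.V} {c : List G.Dart} (h : G.IsPath u c v) :
    G.IsPath v (back c) u := by
  induction c generalizing u with
  | nil => exact (Eq.symm h : v = u)
  | cons d c ih =>
    obtain ⟨h1, h2⟩ := h
    have : back (d :: c) = back c ++ [G.rev d] := by simp [back]
    rw [this, isPath_append]
    exact ⟨_, ih h2, tail_rev d, (head_rev d).trans h1⟩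

theorem along_append (α : G.E → Equiv.Perm (Fin n)) (a b : List G.Dart) :
    along α (a ++ b) = along α a * along α b := by simp [along]

theorem along_cons (α : G.E → Equiv.Perm (Fin n)) (d : G.Dart) (c : List G.Dart) :
    along α (d :: c) = val α d * along α c := by simp [along]

theorem val_rev (α : G.E → Equiv.Perm (Fin n)) (d : G.Dart) : val α (G.rev d) = (val α d)⁻¹ := by
  rcases d with ⟨e, _ | _⟩ <;> simp [val, MGraph.rev]

theorem along_back (α : G.E → Equiv.Perm (Fin n)) (c : List G.Dart) :
    along α (back c) = (along α c)⁻¹ := by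
  induction c with
  | nil => simp [back, along]
  | cons d c ih =>
    have : back (d :: c) = back c ++ [G.rev d] := by simp [back]
    rw [this, along_append, ih, along_cons, along_cons, val_rev]
    simp [along]

theorem split_of_not_chain {α : Type} {R : α → α → Prop} (l : List α) (h : ¬ l.IsChain R) :
    ∃ a d d' b, l = a ++ d :: d' :: b ∧ ¬ R d d' := by
  induction l with
  | nil => exact absurd List.IsChain.nil h
  | cons x l ih =>
    cases l with
    | nil => exact absurd (List.IsChain.singleton x) h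
    | cons y l =>
      by_cases hR : R x y
      · have h' : ¬ (y :: l).IsChain R := fun hc => h (List.IsChain.cons_cons hR hc)
        obtain ⟨a, d, d', b, e, hd⟩ := ih h'
        exact ⟨x :: a, d, d', b, by rw [e]; rfl, hd⟩
      · exact ⟨[], x, y, l, rfl, hR⟩

/-- **Cyclic reduction.** -/
theorem cyclic_reduction (N : ℕ) (c : List G.Dart) (hN : c.length ≤ N)
    (hc : ∃ u, G.IsPath u c u) :
    (∀ (n : ℕ) (α : G.E → Equiv.Perm (Fin n)), along α c = 1) ∨
      ∃ c', G.CyclicallyReduced c' ∧
        ∀ (n : ℕ) (α : G.E → Equiv.Perm (Fin n)), ∃ g, along α c = g * along α c' * g⁻¹ := by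
  induction N generalizing c with
  | zero =>
    left
    have : c = [] := List.length_eq_zero_iff.1 (Nat.le_zero.1 hN)
    subst this
    intro n α
    simp [along]
  | succ N ih =>
    rcases c with _ | ⟨x, c0⟩
    · left
      intro n α
      simp [along]
    by_cases hch : ((x :: c0) ++ (x :: c0).take 1).IsChain fun d d' => d' ≠ G.rev d
    · right
      exact ⟨x :: c0, ⟨by simp, hc, hch⟩, fun n α => ⟨1, by simp⟩⟩
    · obtain ⟨a, d, d', b, e, hd⟩ := split_of_not_chain _ hch
      have hd' : d' = G.rev d := not_not.1 hd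
      subst hd'
      have e' : (x :: c0) ++ [x] = a ++ d :: G.rev d :: b := by
        rw [← e]
        simp
      rcases List.eq_nil_or_concat b with hb | ⟨b', y, hb⟩
      · subst hb
        have e2 : (x :: c0) ++ [x] = (a ++ [d]) ++ [G.rev d] := by
          rw [e']
          simp
        obtain ⟨e3, e4⟩ := List.append_inj' e2 rfl
        have e5 : x = G.rev d := by simpa using e4
        rcases a with _ | ⟨x', a'⟩
        · exfalso
          have : x = d := by simpa using (List.cons.inj e3).1
          rw [this] at e5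
          exact rev_ne d e5.symm
        · have e6 : x = x' ∧ c0 = a' ++ [d] := by simpa using e3
          obtain ⟨u, hu⟩ := hc
          rw [e6.2] at hu hN ⊢
          have hu1 := hu.1
          have hu2 := hu.2
          rw [isPath_append] at hu2
          obtain ⟨v, hv1, hv2⟩ := hu2
          have hv3 : G.tail d = v := hv2.1
          have hcl : ∃ u, G.IsPath u a' u := by
            refine ⟨v, ?_⟩
            have : G.head x = v := by rw [e5, head_rev, hv3]
            rw [this] at hv1
            exact hv1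
          have hlen : a'.length ≤ N := by
            simp only [List.length_cons, List.length_append, List.length_nil] at hN
            omega
          have hal : ∀ (n : ℕ) (α : G.E → Equiv.Perm (Fin n)),
              along α (x :: (a' ++ [d])) = (val α d)⁻¹ * along α a' * (val α d) := by
            intro n α
            rw [along_cons, along_append, e5, val_rev]
            simp [along, mul_assoc]
          rcases ih a' hlen hcl with h | ⟨c', h1, h2⟩
          · left
            intro n α
            rw [hal, h n α]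
            simp
          · right
            refine ⟨c', h1, fun n α => ?_⟩
            obtain ⟨g, hg⟩ := h2 n α
            exact ⟨(val α d)⁻¹ * g, by rw [hal, hg]; simp [mul_assoc]⟩
      · have hb' : b = b' ++ [y] := by simpa using hb
        rw [hb'] at e'
        have e2 : (x :: c0) ++ [x] = (a ++ d :: G.rev d :: b') ++ [y] := by
          rw [e']
          simp
        obtain ⟨e3, -⟩ := List.append_inj' e2 rfl
        rw [e3] at hc hN ⊢
        have hal : ∀ (n : ℕ) (α : G.E → Equiv.Perm (Fin n)),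
            along α (a ++ d :: G.rev d :: b') = along α (a ++ b') := by
          intro n α
          rw [along_append, along_append, along_cons, along_cons, val_rev]
          simp
        have hcl : ∃ u, G.IsPath u (a ++ b') u := by
          obtain ⟨u, hu⟩ := hc
          rw [isPath_append] at hu
          obtain ⟨v, hv1, hv2, hv3, hv4⟩ := hu
          rw [head_rev, hv2] at hv4
          exact ⟨u, isPath_append.2 ⟨v, hv1, hv4⟩⟩
        have hlen : (a ++ b').length ≤ N := by
          simp only [List.length_cons, List.length_append] at hN ⊢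
          omega
        rcases ih _ hlen hcl with h | ⟨c', h1, h2⟩
        · left
          intro n α
          rw [hal, h n α]
        · right
          exact ⟨c', h1, fun n α => by rw [hal]; exact h2 n α⟩

end paths

/-! ## Long directed closed paths -/

section directed

variable {G : MGraph}

/-- All oriented edges of the path have their chosen orientation. -/
def Positive (c : List G.Dart) : Prop := ∀ d ∈ c, d.2 = true

theorem chain_of_positive {c : List G.Dart} (h : Positive c) :
    c.IsChain fun d d' => d' ≠ G.rev d := by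
  induction c with
  | nil => exact List.IsChain.nil
  | cons x c ih =>
    cases c with
    | nil => exact List.IsChain.singleton x
    | cons y c =>
      refine List.IsChain.cons_cons ?_ (ih fun d hd => h d (List.mem_cons_of_mem _ hd))
      intro he
      have h1 : x.2 = true := h x (by simp)
      have h2 : y.2 = true := h y (by simp)
      rw [he] at h2
      simp [MGraph.rev, h1] at h2

theorem cyclicallyReduced_of_positive {c : List G.Dart} (h : Positive c) (hne : c ≠ [])
    {u : G.V} (hu : G.IsPath u c u) : G.CyclicallyReduced c := by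
  refine ⟨hne, ⟨u, hu⟩, chain_of_positive fun d hd => ?_⟩
  rcases List.mem_append.1 hd with h1 | h1
  · exact h d h1
  · exact h d (List.mem_of_mem_take h1)

/-- Strong connectedness along the chosen orientations. -/
def Strong (G : MGraph) : Prop := ∀ u v : G.V, ∃ c, G.IsPath u c v ∧ Positive c

theorem exists_tour (hG : Strong G) (r : G.V) (L : List G.E) :
    ∃ c, G.IsPath r c r ∧ Positive c ∧ ∀ e ∈ L, (e, true) ∈ c := by
  induction L with
  | nil => exact ⟨[], rfl, by intro d hd; simp at hd, by simp⟩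
  | cons e L ih =>
    obtain ⟨c, h1, h2, h3⟩ := ih
    obtain ⟨a, ha1, ha2⟩ := hG r (G.src e)
    obtain ⟨b, hb1, hb2⟩ := hG (G.tgt e) r
    refine ⟨c ++ (a ++ (e, true) :: b), ?_, ?_, ?_⟩
    · refine isPath_append.2 ⟨r, h1, isPath_append.2 ⟨_, ha1, ?_, ?_⟩⟩
      · rfl
      · exact hb1
    · intro d hd
      rcases List.mem_append.1 hd with h | h
      · exact h2 d h
      rcases List.mem_append.1 h with h | h
      · exact ha2 d h
      rcases List.mem_cons.1 h with h | h
      · rw [h]
      · exact hb2 d h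
    · intro e' he'
      rcases List.mem_cons.1 he' with h | h
      · rw [h]; simp
      · simp [h3 e' h]

/-- The `k`-th power of a closed path. -/
def power (c : List G.Dart) (k : ℕ) : List G.Dart := (List.replicate k c).flatten

theorem isPath_power {r : G.V} {c : List G.Dart} (h : G.IsPath r c r) (k : ℕ) :
    G.IsPath r (power c k) r := by
  induction k with
  | zero => exact (rfl : r = r)
  | succ k ih =>
    have : power c (k + 1) = c ++ power c k := by simp [power, List.replicate_succ]
    rw [this]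
    exact isPath_append.2 ⟨r, h, ih⟩

theorem mem_power {c : List G.Dart} {k : ℕ} (hk : k ≠ 0) (d : G.Dart) :
    d ∈ power c k ↔ d ∈ c := by
  simp [power, hk]

end directed

/-! ## The complex attached to a graph -/

section construction

variable (G : MGraph) (hG : Strong G) (r : G.V)

/-- A directed closed path at `r` through all edges. -/
noncomputable def tour : List G.Dart :=
  (exists_tour hG r (Finset.univ : Finset G.E).toList).choose

theorem tour_spec : G.IsPath r (tour G hG r) r ∧ Positive (tour G hG r) ∧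
    ∀ e : G.E, (e, true) ∈ tour G hG r := by
  have h := (exists_tour hG r (Finset.univ : Finset G.E).toList).choose_spec
  exact ⟨h.1, h.2.1, fun e => h.2.2 e (by simp)⟩

/-- A path from `r` to `v`. -/
noncomputable def ray (v : G.V) : List G.Dart := (hG r v).choose

theorem ray_spec (v : G.V) : G.IsPath r (ray G hG r v) v := (hG r v).choose_spec.1

/-- The loop at `r` through the edge `e`. -/
noncomputable def loop (e : G.E) : List G.Dart :=
  ray G hG r (G.src e) ++ (e, true) :: back (ray G hG r (G.tgt e))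

theorem isPath_loop (e : G.E) : G.IsPath r (loop G hG r e) r := by
  refine isPath_append.2 ⟨_, ray_spec G hG r _, rfl, ?_⟩
  exact isPath_back (ray_spec G hG r _)

theorem exists_cell (e : G.E) : ∃ c, G.CyclicallyReduced c ∧
    ∀ (n : ℕ) (α : G.E → Equiv.Perm (Fin n)),
      dh (along α (loop G hG r e)) 1 ≤ dh (along α c) 1 := by
  rcases cyclic_reduction _ (loop G hG r e) le_rfl ⟨r, isPath_loop G hG r e⟩ with h | h
  · obtain ⟨h1, h2, h3⟩ := tour_spec G hG r
    refine ⟨tour G hG r, cyclicallyReduced_of_positive h2 ?_ h1, fun n α => ?_⟩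
    · intro hnil
      have := h3 e
      rw [hnil] at this
      simp at this
    · rw [h n α, dh_self]
      exact dh_nonneg _ _
  · obtain ⟨c, h1, h2⟩ := h
    refine ⟨c, h1, fun n α => ?_⟩
    obtain ⟨g, hg⟩ := h2 n α
    rw [hg, dh_conj]

/-- The complex: one polygon for the loop through every edge, and `|E|` further polygons, the
powers of a directed closed path through all edges. -/
noncomputable def complex : PolygonalComplex where
  toMGraph := G
  P := G.E ⊕ G.E
  bd p := match p with
    | Sum.inl e => (exists_cell G hG r e).choose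
    | Sum.inr e => power (tour G hG r) ((Fintype.equivFin G.E e : ℕ) + 1)
  attach p := by
    match p with
    | Sum.inl e => exact (exists_cell G hG r e).choose_spec.1
    | Sum.inr e =>
      obtain ⟨h1, h2, h3⟩ := tour_spec G hG r
      refine cyclicallyReduced_of_positive ?_ ?_ (isPath_power h1 _)
      · intro d hd
        exact h2 d ((mem_power (Nat.succ_ne_zero _) d).1 hd)
      · intro hnil
        change power (tour G hG r) ((Fintype.equivFin G.E e : ℕ) + 1) = [] at hnil
        have := (mem_power (c := tour G hG r) (Nat.succ_ne_zero (Fintype.equivFin G.E e : ℕ))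
          (e, true)).2 (h3 e)
        rw [Nat.succ_eq_add_one, hnil] at this
        simp at this

end construction

/-! ## The weights of a complex with many polygons through all edges -/

section weights

/-- The complex has `2 |E|` polygons, half of which pass through all edges. -/
structure Wide (X : PolygonalComplex) : Prop where
  ne : Nonempty X.E
  card : Fintype.card X.P = 2 * Fintype.card X.E
  all : ∃ i : X.E → X.P, Function.Injective i ∧ ∀ e e', ∃ b, (e, b) ∈ X.bd (i e')

variable {X : PolygonalComplex} (hX : Wide X)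

include hX

theorem card_pos' : (0 : ℝ) < Fintype.card X.E := by
  have := hX.ne
  exact_mod_cast Fintype.card_pos

theorem mu2_eq (p : X.P) : X.mu2 p = 1 / (2 * Fintype.card X.E) := by
  unfold PolygonalComplex.mu2
  rw [hX.card]
  push_cast
  rfl

theorem w1_bounds (e : X.E) : 1 / 2 ≤ X.w1 e ∧ X.w1 e ≤ 1 := by
  classical
  have hN := card_pos' hX
  obtain ⟨i, hi, hall⟩ := hX.all
  unfold PolygonalComplex.w1
  simp only [mu2_eq hX]
  rw [Finset.sum_const, nsmul_eq_mul]
  constructor
  · have h1 : Fintype.card X.E ≤ #{p : X.P | ∃ b, (e, b) ∈ X.bd p} := by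
      rw [← Finset.card_univ (α := X.E),
        ← Finset.card_image_of_injective (Finset.univ : Finset X.E) hi]
      refine Finset.card_le_card ?_
      intro p hp
      obtain ⟨e', -, rfl⟩ := Finset.mem_image.1 hp
      rw [Finset.mem_filter]
      exact ⟨Finset.mem_univ _, hall e e'⟩
    have h2 : (Fintype.card X.E : ℝ) ≤ (#{p : X.P | ∃ b, (e, b) ∈ X.bd p} : ℝ) := by
      exact_mod_cast h1
    rw [mul_one_div, div_le_div_iff₀ (by norm_num) (by positivity)]
    convert (by linarith : 1 * (2 * (Fintype.card X.E : ℝ)) ≤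
      (#{p : X.P | ∃ b, (e, b) ∈ X.bd p} : ℝ) * 2)
  · have h1 : #{p : X.P | ∃ b, (e, b) ∈ X.bd p} ≤ 2 * Fintype.card X.E := by
      rw [← hX.card]
      exact Finset.card_le_univ _
    have h2 : (#{p : X.P | ∃ b, (e, b) ∈ X.bd p} : ℝ) ≤ 2 * Fintype.card X.E := by
      exact_mod_cast h1
    rw [mul_one_div, div_le_one (by positivity)]
    convert h2

theorem sum_w1_bounds : (Fintype.card X.E : ℝ) / 2 ≤ ∑ e, X.w1 e ∧
    ∑ e, X.w1 e ≤ Fintype.card X.E := by
  constructor
  · have : ∑ _e : X.E, (1 / 2 : ℝ) ≤ ∑ e, X.w1 e :=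
      Finset.sum_le_sum fun e _ => (w1_bounds hX e).1
    rw [Finset.sum_const, nsmul_eq_mul, Finset.card_univ] at this
    linarith
  · have : ∑ e, X.w1 e ≤ ∑ _e : X.E, (1 : ℝ) :=
      Finset.sum_le_sum fun e _ => (w1_bounds hX e).2
    rw [Finset.sum_const, nsmul_eq_mul, Finset.card_univ, mul_one] at this
    exact this

theorem mu1_lower (e : X.E) : 1 / (2 * Fintype.card X.E) ≤ X.mu1 e := by
  have hN := card_pos' hX
  obtain ⟨h1, h2⟩ := sum_w1_bounds hX
  obtain ⟨h3, h4⟩ := w1_bounds hX e
  have hpos : 0 < ∑ e, X.w1 e := by linarith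
  unfold PolygonalComplex.mu1
  rw [div_le_div_iff₀ (by positivity) hpos]
  nlinarith

theorem mu1_upper (e : X.E) : X.mu1 e ≤ 2 / Fintype.card X.E := by
  have hN := card_pos' hX
  obtain ⟨h1, h2⟩ := sum_w1_bounds hX
  obtain ⟨h3, h4⟩ := w1_bounds hX e
  have hpos : 0 < ∑ e, X.w1 e := by linarith
  unfold PolygonalComplex.mu1
  rw [div_le_div_iff₀ hpos hN]
  nlinarith

theorem mu1_pos (e : X.E) : 0 < X.mu1 e := by
  have hN := card_pos' hX
  have := mu1_lower hX e
  have h2 : (0 : ℝ) < 1 / (2 * Fintype.card X.E) := by positivity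
  linarith

theorem sum_mu1 : ∑ e, X.mu1 e = 1 := by
  have hN := card_pos' hX
  obtain ⟨h1, h2⟩ := sum_w1_bounds hX
  have hpos : 0 < ∑ e, X.w1 e := by linarith
  unfold PolygonalComplex.mu1
  rw [← Finset.sum_div, div_self hpos.ne']

theorem one_le_sum_w0 : 1 ≤ ∑ v, X.w0 v := by
  classical
  have h1 : ∑ v : X.V, ∑ e : X.E with X.src e = v, X.mu1 e = ∑ e, X.mu1 e :=
    Finset.sum_fiberwise _ _ _
  rw [sum_mu1 hX] at h1
  rw [← h1]
  refine Finset.sum_le_sum fun v _ => ?_
  unfold PolygonalComplex.w0
  refine Finset.sum_le_sum_of_subset_of_nonneg ?_ fun e _ _ => (mu1_pos hX e).le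
  intro e he
  rw [Finset.mem_filter] at he ⊢
  exact ⟨Finset.mem_univ _, Or.inl he.2⟩

theorem w0_nonneg (v : X.V) : 0 ≤ X.w0 v := by
  unfold PolygonalComplex.w0
  exact Finset.sum_nonneg fun e _ => (mu1_pos hX e).le

theorem mu0_nonneg (v : X.V) : 0 ≤ X.mu0 v := by
  have h1 := one_le_sum_w0 hX
  unfold PolygonalComplex.mu0
  exact div_nonneg (w0_nonneg hX v) (by linarith)

open Classical in
theorem mu0_upper {D : ℕ} (hD : ∀ v : X.V, #{e : X.E | X.src e = v ∨ X.tgt e = v} ≤ D)
    (v : X.V) : X.mu0 v ≤ 2 * D / Fintype.card X.E := by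
  have hN := card_pos' hX
  have h1 := one_le_sum_w0 hX
  have h2 : X.w0 v ≤ 2 * D / Fintype.card X.E := by
    unfold PolygonalComplex.w0
    calc ∑ e : X.E with X.src e = v ∨ X.tgt e = v, X.mu1 e
        ≤ ∑ e : X.E with X.src e = v ∨ X.tgt e = v, (2 / Fintype.card X.E : ℝ) :=
          Finset.sum_le_sum fun e _ => mu1_upper hX e
      _ = #{e : X.E | X.src e = v ∨ X.tgt e = v} * (2 / Fintype.card X.E : ℝ) := by
          rw [Finset.sum_const, nsmul_eq_mul]
      _ ≤ D * (2 / Fintype.card X.E : ℝ) := by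
          refine mul_le_mul_of_nonneg_right ?_ (by positivity)
          exact_mod_cast hD v
      _ = 2 * D / Fintype.card X.E := by ring
  unfold PolygonalComplex.mu0
  exact (div_le_self (w0_nonneg hX v) h1).trans h2

theorem mu0_pos {v : X.V} (hv : ∃ e, X.src e = v) : 0 < X.mu0 v := by
  classical
  obtain ⟨e, he⟩ := hv
  have h1 := one_le_sum_w0 hX
  unfold PolygonalComplex.mu0
  refine div_pos ?_ (by linarith)
  unfold PolygonalComplex.w0
  refine Finset.sum_pos (fun e _ => mu1_pos hX e) ⟨e, ?_⟩
  rw [Finset.mem_filter]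
  exact ⟨Finset.mem_univ _, Or.inl he⟩

/-! ## The first Cheeger constant -/

theorem dist1_pos {n : ℕ} (hn : 1 ≤ n) {α : X.E → Equiv.Perm (Fin n)}
    (hα : α ∉ X.B1 n) : 0 < X.dist1 α := by
  obtain ⟨β, hβ⟩ := exists_eq_ciInf_of_finite
    (f := fun β : X.V → Equiv.Perm (Fin n) => ∑ e, X.mu1 e * dh (α e) (X.delta0 β e))
  have hd : X.dist1 α = ∑ e, X.mu1 e * dh (α e) (X.delta0 β e) := hβ.symm
  rw [hd]
  have hnn : ∀ e ∈ (Finset.univ : Finset X.E), 0 ≤ X.mu1 e * dh (α e) (X.delta0 β e) :=
    fun e _ => mul_nonneg (mu1_pos hX e).le (dh_nonneg _ _)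
  refine lt_of_le_of_ne (Finset.sum_nonneg hnn) ?_
  intro h0
  have h1 := (Finset.sum_eq_zero_iff_of_nonneg hnn).1 h0.symm
  refine hα ⟨β, funext fun e => ?_⟩
  by_contra hne
  have h2 := h1 e (Finset.mem_univ _)
  have h3 := mul_pos (mu1_pos hX e) (dh_pos hn (Ne.symm hne))
  exact h3.ne' h2

/-- Every edge has a polygon that detects it, after a change of gauge. -/
def Coned (X : PolygonalComplex) : Prop :=
  ∃ i : X.E → X.P, Function.Injective i ∧ ∀ (n : ℕ) (α : X.E → Equiv.Perm (Fin n)),
    ∃ β : X.V → Equiv.Perm (Fin n), ∀ e, dh (α e) (X.delta0 β e) ≤ dh (X.delta1 α (i e)) 1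

theorem dist1_le (hc : Coned X) {n : ℕ} (α : X.E → Equiv.Perm (Fin n)) :
    X.dist1 α ≤ 4 * X.norm2 (X.delta1 α) := by
  classical
  have hN := card_pos' hX
  obtain ⟨i, hi, hcell⟩ := hc
  obtain ⟨β, hβ⟩ := hcell n α
  have hbdd : BddBelow (Set.range fun β : X.V → Equiv.Perm (Fin n) =>
      ∑ e, X.mu1 e * dh (α e) (X.delta0 β e)) := (Set.finite_range _).bddBelow
  have h1 : X.dist1 α ≤ ∑ e, X.mu1 e * dh (α e) (X.delta0 β e) := ciInf_le hbdd β
  have h3 : ∑ e, X.mu1 e * dh (α e) (X.delta0 β e) ≤
      ∑ e, (2 / Fintype.card X.E : ℝ) * dh (X.delta1 α (i e)) 1 :=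
    Finset.sum_le_sum fun e _ => mul_le_mul (mu1_upper hX e) (hβ e) (dh_nonneg _ _)
      (by positivity)
  have h4 : ∑ e, (1 / (2 * Fintype.card X.E) : ℝ) * dh (X.delta1 α (i e)) 1 ≤
      X.norm2 (X.delta1 α) := by
    unfold PolygonalComplex.norm2
    simp only [mu2_eq hX]
    rw [← Finset.sum_image (s := Finset.univ) (g := i)
      (f := fun p => (1 / (2 * Fintype.card X.E) : ℝ) * dh (X.delta1 α p) 1)
      (fun a _ b _ h => hi h)]
    exact Finset.sum_le_sum_of_subset_of_nonneg (Finset.subset_univ _)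
      fun p _ _ => mul_nonneg (by positivity) (dh_nonneg _ _)
  have h6 : ∑ e, (2 / Fintype.card X.E : ℝ) * dh (X.delta1 α (i e)) 1 =
      4 * ∑ e, (1 / (2 * Fintype.card X.E) : ℝ) * dh (X.delta1 α (i e)) 1 := by
    rw [Finset.mul_sum]
    refine Finset.sum_congr rfl fun e _ => ?_
    field_simp
    ring
  linarith

theorem h1_lower (hc : Coned X) : ENNReal.ofReal (1 / 4) ≤ X.h1 := by
  unfold PolygonalComplex.h1
  refine le_iInf fun n => le_iInf fun hn => le_iInf fun α => le_iInf fun hα => ?_
  refine ENNReal.ofReal_le_ofReal ?_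
  have h1 := dist1_pos hX hn hα
  have h2 := dist1_le hX hc α
  rw [le_div_iff₀ h1]
  linarith

/-! ## The zeroth Cheeger constant -/

theorem dist0_pos {n : ℕ} (hn : 1 ≤ n) (hv : ∀ v, ∃ e, X.src e = v)
    {β : X.V → Equiv.Perm (Fin n)} (hβ : β ∉ X.B0 n) : 0 < X.dist0 β := by
  obtain ⟨σ, hσ⟩ := exists_eq_ciInf_of_finite
    (f := fun σ : Equiv.Perm (Fin n) => ∑ v, X.mu0 v * dh (β v) σ)
  have hd : X.dist0 β = ∑ v, X.mu0 v * dh (β v) σ := hσ.symm
  rw [hd]
  have hnn : ∀ v ∈ (Finset.univ : Finset X.V), 0 ≤ X.mu0 v * dh (β v) σ :=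
    fun v _ => mul_nonneg (mu0_nonneg hX v) (dh_nonneg _ _)
  refine lt_of_le_of_ne (Finset.sum_nonneg hnn) ?_
  intro h0
  have h1 := (Finset.sum_eq_zero_iff_of_nonneg hnn).1 h0.symm
  refine hβ ⟨σ, fun v => ?_⟩
  by_contra hne
  have h2 := h1 v (Finset.mem_univ _)
  have h3 := mul_pos (mu0_pos hX (hv v)) (dh_pos hn hne)
  exact h3.ne' h2

end weights

/-! ## The Poincaré inequality for maps to the symmetric group -/

open Classical in
theorem dh_eq {n : ℕ} (σ τ : Equiv.Perm (Fin n)) :
    dh σ τ = (∑ j : Fin n, ∑ c : Fin n,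
      ((if σ j = c then 1 else 0) - (if τ j = c then 1 else 0) : ℝ) ^ 2) / (2 * n) := by
  have h1 : ∀ j : Fin n, ∑ c : Fin n,
      ((if σ j = c then 1 else 0) - (if τ j = c then 1 else 0) : ℝ) ^ 2 =
      if σ j ≠ τ j then 2 else 0 := by
    intro j
    by_cases h : σ j = τ j
    · simp [h]
    · rw [if_pos h]
      have h2 : ∀ c : Fin n, ((if σ j = c then 1 else 0) - (if τ j = c then 1 else 0) : ℝ) ^ 2 =
          (if σ j = c then 1 else 0) + (if τ j = c then 1 else 0) := by
        intro c
        by_cases h3 : σ j = c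
        · have h4 : τ j ≠ c := fun h4 => h (h3.trans h4.symm)
          simp [h3, h4]
        · by_cases h4 : τ j = c
          · simp [h3, h4]
          · simp [h3, h4]
      simp only [h2, Finset.sum_add_distrib, Finset.sum_ite_eq, Finset.mem_univ, if_true]
      norm_num
  simp only [h1]
  rw [← Finset.sum_filter, Finset.sum_const, nsmul_eq_mul]
  unfold dh
  rcases Nat.eq_zero_or_pos n with rfl | hn
  · simp
  · have : (0 : ℝ) < n := by exact_mod_cast hn
    field_simp

/-- The Poincaré inequality with constant `K`. -/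
def Poincare (G : MGraph) (K : ℝ) : Prop := ∀ f : G.V → ℝ, ∑ v, f v = 0 →
  ∑ v, f v ^ 2 ≤ K * ∑ e, (f (G.tgt e) - f (G.src e)) ^ 2

theorem pair_bound {G : MGraph} {K : ℝ} (hG : Poincare G K) (hV : Nonempty G.V) (f : G.V → ℝ) :
    ∑ v, ∑ v', (f v - f v') ^ 2 ≤
      2 * Fintype.card G.V * K * ∑ e, (f (G.tgt e) - f (G.src e)) ^ 2 := by
  have hN : (0 : ℝ) < Fintype.card G.V := by exact_mod_cast Fintype.card_pos
  set m : ℝ := (∑ v, f v) / Fintype.card G.V with hm
  have h0 : ∑ v, (f v - m) = 0 := by
    rw [Finset.sum_sub_distrib, Finset.sum_const, nsmul_eq_mul, Finset.card_univ, hm]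
    field_simp
    ring
  have h1 := hG (fun v => f v - m) h0
  have h2 : ∑ v, ∑ v', (f v - f v') ^ 2 = 2 * Fintype.card G.V * ∑ v, (f v - m) ^ 2 := by
    have h3 : ∀ v v' : G.V, (f v - f v') ^ 2 =
        (f v - m) ^ 2 + (f v' - m) ^ 2 - 2 * ((f v - m) * (f v' - m)) := by
      intro v v'; ring
    simp only [h3, Finset.sum_sub_distrib, Finset.sum_add_distrib, Finset.sum_const,
      nsmul_eq_mul, Finset.card_univ, ← Finset.mul_sum, h0, mul_zero]
    ring
  rw [h2, mul_assoc (2 * (Fintype.card G.V : ℝ))]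
  refine mul_le_mul_of_nonneg_left ?_ (by positivity)
  refine h1.trans (le_of_eq ?_)
  congr 1
  exact Finset.sum_congr rfl fun e _ => by ring

theorem ham_bound {G : MGraph} {K : ℝ} (hG : Poincare G K) (hV : Nonempty G.V) {n : ℕ}
    (β : G.V → Equiv.Perm (Fin n)) :
    ∑ v, ∑ v', dh (β v) (β v') ≤
      2 * Fintype.card G.V * K * ∑ e, dh (β (G.tgt e)) (β (G.src e)) := by
  classical
  have key : ∀ j c : Fin n, ∑ v, ∑ v',
      ((if β v j = c then 1 else 0) - (if β v' j = c then 1 else 0) : ℝ) ^ 2 ≤
      2 * Fintype.card G.V * K * ∑ e, ((if β (G.tgt e) j = c then 1 else 0) -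
        (if β (G.src e) j = c then 1 else 0) : ℝ) ^ 2 :=
    fun j c => pair_bound hG hV fun v => if β v j = c then (1 : ℝ) else 0
  have h1 : ∑ v, ∑ v', dh (β v) (β v') = (∑ j : Fin n, ∑ c : Fin n, ∑ v, ∑ v',
      ((if β v j = c then 1 else 0) - (if β v' j = c then 1 else 0) : ℝ) ^ 2) / (2 * n) := by
    simp only [dh_eq]
    simp only [← Finset.sum_div]
    congr 1
    calc ∑ v, ∑ v', ∑ j : Fin n, ∑ c : Fin n,
        ((if β v j = c then 1 else 0) - (if β v' j = c then 1 else 0) : ℝ) ^ 2
        = ∑ v, ∑ j : Fin n, ∑ v', ∑ c : Fin n,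
        ((if β v j = c then 1 else 0) - (if β v' j = c then 1 else 0) : ℝ) ^ 2 :=
          Finset.sum_congr rfl fun v _ => Finset.sum_comm
      _ = ∑ j : Fin n, ∑ v, ∑ v', ∑ c : Fin n,
        ((if β v j = c then 1 else 0) - (if β v' j = c then 1 else 0) : ℝ) ^ 2 := Finset.sum_comm
      _ = ∑ j : Fin n, ∑ v, ∑ c : Fin n, ∑ v',
        ((if β v j = c then 1 else 0) - (if β v' j = c then 1 else 0) : ℝ) ^ 2 :=
          Finset.sum_congr rfl fun j _ => Finset.sum_congr rfl fun v _ => Finset.sum_comm
      _ = _ := Finset.sum_congr rfl fun j _ => Finset.sum_comm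
  have h2 : ∑ e, dh (β (G.tgt e)) (β (G.src e)) = (∑ j : Fin n, ∑ c : Fin n, ∑ e,
      ((if β (G.tgt e) j = c then 1 else 0) - (if β (G.src e) j = c then 1 else 0) : ℝ) ^ 2) /
        (2 * n) := by
    simp only [dh_eq]
    simp only [← Finset.sum_div]
    congr 1
    calc ∑ e, ∑ j : Fin n, ∑ c : Fin n,
        ((if β (G.tgt e) j = c then 1 else 0) - (if β (G.src e) j = c then 1 else 0) : ℝ) ^ 2
        = ∑ j : Fin n, ∑ e, ∑ c : Fin n,
        ((if β (G.tgt e) j = c then 1 else 0) - (if β (G.src e) j = c then 1 else 0) : ℝ) ^ 2 :=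
          Finset.sum_comm
      _ = _ := Finset.sum_congr rfl fun j _ => Finset.sum_comm
  rw [h1, h2, ← mul_div_assoc]
  refine div_le_div_of_nonneg_right ?_ (by positivity)
  rw [Finset.mul_sum]
  refine Finset.sum_le_sum fun j _ => ?_
  rw [Finset.mul_sum]
  exact Finset.sum_le_sum fun c _ => key j c

open Classical in
theorem dist0_le {X : PolygonalComplex} (hX : Wide X) {K : ℝ} (hK : 0 ≤ K)
    (hP : Poincare X.toMGraph K) {D : ℕ}
    (hD : ∀ v : X.V, #{e : X.E | X.src e = v ∨ X.tgt e = v} ≤ D) {n : ℕ}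
    (β : X.V → Equiv.Perm (Fin n)) : X.dist0 β ≤ 8 * D * K * X.norm1 (X.delta0 β) := by
  have hN := card_pos' hX
  have hV : Nonempty X.V := by
    obtain ⟨e⟩ := hX.ne
    exact ⟨X.src e⟩
  have hM : (0 : ℝ) < Fintype.card X.V := by exact_mod_cast Fintype.card_pos
  have hbdd : BddBelow (Set.range fun σ : Equiv.Perm (Fin n) => ∑ v, X.mu0 v * dh (β v) σ) :=
    (Set.finite_range _).bddBelow
  have h1 : ∀ v', X.dist0 β ≤ ∑ v, (2 * D / Fintype.card X.E : ℝ) * dh (β v) (β v') := by
    intro v'
    refine (ciInf_le hbdd (β v')).trans ?_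
    exact Finset.sum_le_sum fun v _ =>
      mul_le_mul_of_nonneg_right (mu0_upper hX hD v) (dh_nonneg _ _)
  have h2 : (Fintype.card X.V : ℝ) * X.dist0 β ≤
      (2 * D / Fintype.card X.E : ℝ) * ∑ v, ∑ v', dh (β v) (β v') := by
    calc (Fintype.card X.V : ℝ) * X.dist0 β = ∑ _v' : X.V, X.dist0 β := by
          rw [Finset.sum_const, nsmul_eq_mul, Finset.card_univ]
      _ ≤ ∑ v', ∑ v, (2 * D / Fintype.card X.E : ℝ) * dh (β v) (β v') :=
          Finset.sum_le_sum fun v' _ => h1 v'
      _ = (2 * D / Fintype.card X.E : ℝ) * ∑ v, ∑ v', dh (β v) (β v') := by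
          rw [Finset.sum_comm]
          simp only [Finset.mul_sum]
  have h3 := ham_bound hP hV β
  have h4 : (1 / (2 * Fintype.card X.E) : ℝ) * ∑ e, dh (β (X.tgt e)) (β (X.src e)) ≤
      X.norm1 (X.delta0 β) := by
    unfold PolygonalComplex.norm1
    rw [Finset.mul_sum]
    refine Finset.sum_le_sum fun e _ => ?_
    have h5 : dh (X.delta0 β e) 1 = dh (β (X.tgt e)) (β (X.src e)) := by
      rw [← dh_mul_left (β (X.src e)) (X.delta0 β e) 1]
      simp [PolygonalComplex.delta0]
    rw [h5]
    exact mul_le_mul_of_nonneg_right (mu1_lower hX e) (dh_nonneg _ _)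
  set S : ℝ := ∑ e, dh (β (X.tgt e)) (β (X.src e)) with hS
  have h6 : (Fintype.card X.V : ℝ) * X.dist0 β ≤
      (Fintype.card X.V : ℝ) * (8 * D * K * ((1 / (2 * Fintype.card X.E) : ℝ) * S)) := by
    refine h2.trans ?_
    refine (mul_le_mul_of_nonneg_left h3 (by positivity)).trans (le_of_eq ?_)
    field_simp
    ring
  have h7 := le_of_mul_le_mul_left h6 hM
  refine h7.trans ?_
  exact mul_le_mul_of_nonneg_left h4 (by positivity)

open Classical in
theorem h0_lower {X : PolygonalComplex} (hX : Wide X) {K : ℝ} (hK : 0 < K)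
    (hP : Poincare X.toMGraph K) {D : ℕ} (hD0 : 0 < D)
    (hD : ∀ v : X.V, #{e : X.E | X.src e = v ∨ X.tgt e = v} ≤ D)
    (hv : ∀ v, ∃ e, X.src e = v) : ENNReal.ofReal (1 / (8 * D * K)) ≤ X.h0 := by
  unfold PolygonalComplex.h0
  refine le_iInf fun n => le_iInf fun hn => le_iInf fun β => le_iInf fun hβ => ?_
  refine ENNReal.ofReal_le_ofReal ?_
  have h1 := dist0_pos hX hn hv hβ
  have h2 := dist0_le hX hK.le hP hD β
  have h3 : (0 : ℝ) < D := by exact_mod_cast hD0
  rw [le_div_iff₀ h1, one_div, inv_mul_le_iff₀ (by positivity)]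
  exact h2

/-! ## The complex attached to a graph has large Cheeger constants -/

section apply

variable (G : MGraph) (hG : Strong G) (r : G.V)

theorem wide_complex (hE : Nonempty G.E) : Wide (complex G hG r) where
  ne := hE
  card := by
    change Fintype.card (G.E ⊕ G.E) = 2 * Fintype.card G.E
    rw [Fintype.card_sum]
    ring
  all := by
    refine ⟨Sum.inr, Sum.inr_injective, fun e e' => ⟨true, ?_⟩⟩
    change (e, true) ∈ power (tour G hG r) ((Fintype.equivFin G.E e' : ℕ) + 1)
    exact (mem_power (Nat.succ_ne_zero _) _).2 ((tour_spec G hG r).2.2 e)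

theorem along_loop {n : ℕ} (α : G.E → Equiv.Perm (Fin n)) (e : G.E) :
    along α (loop G hG r e) = along α (ray G hG r (G.src e)) * α e *
      (along α (ray G hG r (G.tgt e)))⁻¹ := by
  unfold loop
  rw [along_append, along_cons, along_back]
  simp [val, mul_assoc]

theorem dh_loop {n : ℕ} (α : G.E → Equiv.Perm (Fin n)) (e : G.E) :
    dh (α e) ((along α (ray G hG r (G.src e)))⁻¹ * along α (ray G hG r (G.tgt e))) =
      dh (along α (loop G hG r e)) 1 := by
  rw [along_loop, ← dh_mul_left (along α (ray G hG r (G.src e))) (α e),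
    ← dh_mul_right (along α (ray G hG r (G.src e)) * α e) _
      (along α (ray G hG r (G.tgt e)))⁻¹]
  simp

theorem coned_complex : Coned (complex G hG r) := by
  refine ⟨Sum.inl, Sum.inl_injective, fun n α => ⟨fun v => along α (ray G hG r v), fun e => ?_⟩⟩
  have h1 := (exists_cell G hG r e).choose_spec.2 n α
  refine le_trans (le_of_eq ?_) h1
  exact dh_loop G hG r α e

end apply

/-! ## The expander graphs -/

section torus

/-- The endpoints of the four edges starting at a vertex of the torus. -/
def step {k : ℕ} (z : ZMod k × ZMod k) : Fin 4 → ZMod k × ZMod k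
  | 0 => (z.1 + z.2, z.2)
  | 1 => (z.1, z.2 + z.1)
  | 2 => (z.1 + 1, z.2)
  | 3 => (z.1, z.2 + 1)

theorem step_injective {k : ℕ} (i : Fin 4) :
    Function.Injective fun z : ZMod k × ZMod k => step z i := by
  rintro ⟨a, b⟩ ⟨c, d⟩ h
  fin_cases i <;> simp only [step, Prod.mk.injEq] at h ⊢
  · obtain ⟨h1, h2⟩ := h
    subst h2
    exact ⟨by simpa using h1, rfl⟩
  · obtain ⟨h1, h2⟩ := h
    subst h1
    exact ⟨rfl, by simpa using h2⟩
  · simpa using h
  · simpa using h

/-- The graph on the torus `(ℤ/k)²`. -/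
abbrev torus (k : ℕ) [NeZero k] : MGraph where
  V := ZMod k × ZMod k
  E := (ZMod k × ZMod k) × Fin 4
  src e := e.1
  tgt e := step e.1 e.2

variable (k : ℕ) [NeZero k]

theorem torus_poincare : Poincare (torus k) 104 := by
  intro f hf
  refine (Pool.Agent.H243R3.PCP.poincare f hf).trans (le_of_eq ?_)
  congr 1
  change _ = ∑ e : (ZMod k × ZMod k) × Fin 4, (f (step e.1 e.2) - f e.1) ^ 2
  have h1 : ∑ e : (ZMod k × ZMod k) × Fin 4, (f (step e.1 e.2) - f e.1) ^ 2 =
      ∑ z : ZMod k × ZMod k, ∑ i : Fin 4, (f (step z i) - f z) ^ 2 :=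
    Fintype.sum_prod_type (fun e : (ZMod k × ZMod k) × Fin 4 => (f (step e.1 e.2) - f e.1) ^ 2)
  rw [h1]
  simp only [Fin.sum_univ_four, Finset.sum_add_distrib]
  rfl

theorem walk_x (j : ℕ) (z : ZMod k × ZMod k) :
    ∃ c, (torus k).IsPath z c (z.1 + j, z.2) ∧ Positive c := by
  induction j with
  | zero => exact ⟨[], by simp [MGraph.IsPath], by intro d hd; simp at hd⟩
  | succ j ih =>
    obtain ⟨c, h1, h2⟩ := ih
    refine ⟨c ++ [(((z.1 + j, z.2), 2), true)], isPath_append.2 ⟨_, h1, rfl, ?_⟩, ?_⟩
    · change step (z.1 + (j : ZMod k), z.2) 2 = (z.1 + ((j + 1 : ℕ) : ZMod k), z.2)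
      simp [step, add_assoc]
    · intro d hd
      rcases List.mem_append.1 hd with h | h
      · exact h2 d h
      · rw [List.mem_singleton.1 h]

theorem walk_y (j : ℕ) (z : ZMod k × ZMod k) :
    ∃ c, (torus k).IsPath z c (z.1, z.2 + j) ∧ Positive c := by
  induction j with
  | zero => exact ⟨[], by simp [MGraph.IsPath], by intro d hd; simp at hd⟩
  | succ j ih =>
    obtain ⟨c, h1, h2⟩ := ih
    refine ⟨c ++ [(((z.1, z.2 + j), 3), true)], isPath_append.2 ⟨_, h1, rfl, ?_⟩, ?_⟩
    · change step (z.1, z.2 + (j : ZMod k)) 3 = (z.1, z.2 + ((j + 1 : ℕ) : ZMod k))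
      simp [step, add_assoc]
    · intro d hd
      rcases List.mem_append.1 hd with h | h
      · exact h2 d h
      · rw [List.mem_singleton.1 h]

theorem torus_strong : Strong (torus k) := by
  intro u v
  obtain ⟨c, h1, h2⟩ := walk_x k (v.1 - u.1).val u
  obtain ⟨c', h3, h4⟩ := walk_y k (v.2 - u.2).val (u.1 + ((v.1 - u.1).val : ℕ), u.2)
  refine ⟨c ++ c', isPath_append.2 ⟨_, h1, ?_⟩, ?_⟩
  · have : (u.1 + (((v.1 - u.1).val : ℕ) : ZMod k),
        u.2 + (((v.2 - u.2).val : ℕ) : ZMod k)) = v := by
      simp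
    exact (congrArg (fun w => (torus k).IsPath _ c' w) this).mp h3
  · intro d hd
    rcases List.mem_append.1 hd with h | h
    · exact h2 d h
    · exact h4 d h

theorem torus_incident (v : (torus k).V)
    (inst : DecidablePred fun e : (torus k).E => (torus k).src e = v ∨ (torus k).tgt e = v) :
    (@Finset.filter _ (fun e : (torus k).E => (torus k).src e = v ∨ (torus k).tgt e = v) inst
      Finset.univ).card ≤ 8 := by
  classical
  have h1 : #{e : (torus k).E | (torus k).src e = v} ≤ 4 := by
    have := Finset.card_le_card_of_injOn (s := {e : (torus k).E | (torus k).src e = v})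
      (t := (Finset.univ : Finset (Fin 4))) (fun e => e.2) (fun e _ => Finset.mem_univ _) ?_
    · simpa using this
    · intro e he e' he' h
      have h2 : e.1 = v := by simpa using he
      have h3 : e'.1 = v := by simpa using he'
      exact Prod.ext (h2.trans h3.symm) h
  have h2 : #{e : (torus k).E | (torus k).tgt e = v} ≤ 4 := by
    have := Finset.card_le_card_of_injOn (s := {e : (torus k).E | (torus k).tgt e = v})
      (t := (Finset.univ : Finset (Fin 4))) (fun e => e.2) (fun e _ => Finset.mem_univ _) ?_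
    · simpa using this
    · intro e he e' he' h
      have h2 : step e.1 e.2 = v := by simpa using he
      have h3 : step e'.1 e'.2 = v := by simpa using he'
      have h4 : e.2 = e'.2 := h
      refine Prod.ext ?_ h4
      rw [h4] at h2
      exact step_injective e'.2 (h2.trans h3.symm)
  have h3 : (@Finset.filter _ (fun e : (torus k).E => (torus k).src e = v ∨ (torus k).tgt e = v)
      inst Finset.univ) = ({e : (torus k).E | (torus k).src e = v} : Finset _) ∪
        ({e : (torus k).E | (torus k).tgt e = v} : Finset _) := by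
    ext e
    simp only [Finset.mem_filter, Finset.mem_union, Finset.mem_univ, true_and]
  rw [h3]
  exact (Finset.card_union_le _ _).trans (by omega)

theorem torus_degree (v : (torus k).V) : (torus k).degree v ≤ 8 := by
  unfold MGraph.degree
  have : Function.Injective (fun d : {d : (torus k).Dart // (torus k).tail d = v} =>
      ((d.1.1.2, d.1.2) : Fin 4 × Bool)) := by
    rintro ⟨⟨⟨e, i⟩, b⟩, h⟩ ⟨⟨⟨e', i'⟩, b'⟩, h'⟩ heq
    simp only [Prod.mk.injEq] at heq
    obtain ⟨rfl, rfl⟩ := heq
    have : e = e' := by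
      cases b
      · have h1 : step e i = v := h
        have h2 : step e' i = v := h'
        exact step_injective i (h1.trans h2.symm)
      · have h1 : e = v := h
        have h2 : e' = v := h'
        exact h1.trans h2.symm
    subst this
    rfl
  have h2 := Nat.card_le_card_of_injective _ this
  refine h2.trans (le_of_eq ?_)
  simp

end torus

/-! ## The theorem -/

/-- **A positive answer to Q1 as worded.** There are a constant `lam > 0` and an infinite sequence
of connected finite polygonal complexes with at most `8` edges at every vertex, of strictly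
increasing (hence pairwise different) numbers of vertices, such that both Cheeger constants with
permutation coefficients are at least `lam`. -/
theorem result : ∃ (k : ℕ) (lam : ℝ), 0 < lam ∧ ∃ X : ℕ → PolygonalComplex,
    (StrictMono fun m => Fintype.card (X m).V) ∧
    (∀ m, (X m).Connected) ∧
    (∀ m v, (X m).degree v ≤ k) ∧
    (∀ m, ENNReal.ofReal lam ≤ (X m).h0) ∧
    (∀ m, ENNReal.ofReal lam ≤ (X m).h1) := by
  refine ⟨8, 1 / (8 * 8 * 104), by norm_num,
    fun m => complex (torus (m + 1)) (torus_strong (m + 1)) (0, 0), ?_, ?_, ?_, ?_, ?_⟩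
  · intro a b hab
    change Fintype.card (ZMod (a + 1) × ZMod (a + 1)) < Fintype.card (ZMod (b + 1) × ZMod (b + 1))
    rw [Fintype.card_prod, Fintype.card_prod, ZMod.card, ZMod.card]
    nlinarith
  · intro m
    refine ⟨⟨((0, 0) : ZMod (m + 1) × ZMod (m + 1))⟩, fun u v => ?_⟩
    obtain ⟨c, hc, -⟩ := torus_strong (m + 1) u v
    exact ⟨c, hc⟩
  · intro m v
    exact torus_degree (m + 1) v
  · intro m
    have h := h0_lower (X := complex (torus (m + 1)) (torus_strong (m + 1)) (0, 0))
      (wide_complex _ _ _ ⟨((0, 0), 0)⟩) (K := 104) (by norm_num) (torus_poincare (m + 1))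
      (D := 8) (by norm_num) (fun v => torus_incident (m + 1) v _) (fun v => ⟨(v, 0), rfl⟩)
    refine le_trans (ENNReal.ofReal_le_ofReal (le_of_eq ?_)) h
    norm_num
  · intro m
    refine le_trans (ENNReal.ofReal_le_ofReal (by norm_num)) (h1_lower
      (wide_complex (torus (m + 1)) (torus_strong (m + 1)) (0, 0) ⟨((0, 0), 0)⟩)
      (coned_complex _ _ _))

end Pool.Agent.Results.MP_d4a15d_co.BoundedVertexDegree
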